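import Pool.Agent.Work.MP_99322d_an.Fin.OfUpper
import Pool.Agent.Work.MP_99322d_an.L.DP0
import Pool.Agent.Work.MP_99322d_an.U.Up
import Pool.Agent.Work.MP_99322d_an.Lit

/-!
# MP_99322d_an, Q1: the answer is NO

There is a level `0 < α < log 2` such that the isentrope `E_α = {(c, b) : h(c, b) = α}` of the real
Henon family `f(x, y) = (x² - b y + c, x)` is nonempty and not connected. Moreover a part of `E_α` is
isolated: there is an open set `U` inside `(-2, -1.9) × (0, 0.00001)` which meets `E_α` while its
frontier does not.

`h c b` is the topological entropy of the map on its bounded orbits: the supremum over the compact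
sets `K` with `f(K) ⊆ K` of Mathlib's `Dynamics.coverEntropy`. With ALL compact sets `K` of the plane
the same supremum is infinite for every `(c, b)` (theorem `literal_entropy` in `Lit.lean`), while the
problem states that the values lie in `[0, log 2]`.

Proof. Near `P0 = (-1.98187394501…, 0.00000215152445…)` there are two attracting cycles, of periods 20
and 18. The fold tips of the type `(+,+)` (respectively `(-,-)`) land in the window of the first
(respectively second) cycle and are trapped there only when the parameter of the window is near its
centre. So the entropy at `P0` is at most `log L0q` (certified subshift of finite type), but at least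
`log L1q > log L0q` on the boundary of a parallelogram around `P0` (certified covering relations).
The mirror point `(c / b², 1 / b)` of `P0` has the same entropy and lies outside.
-/

set_option autoImplicit false

namespace Pool.Agent.Results.MP_99322d_an.IsolatedIsentrope

open Set Pool.Agent.Work.MP_99322d_an

/-- **Negative answer to Q1.** -/
theorem result :
    ∃ α : ℝ, 0 < α ∧ α < Real.log 2 ∧
      (∃ U : Set (ℝ × ℝ), IsOpen U ∧ U ⊆ Ioo (-2 : ℝ) (-1.9) ×ˢ Ioo (0 : ℝ) 0.00001 ∧
        ({p : ℝ × ℝ | h p.1 p.2 = (α : EReal)} ∩ U).Nonempty ∧
        {p : ℝ × ℝ | h p.1 p.2 = (α : EReal)} ∩ frontier U = ∅) ∧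
      {p : ℝ × ℝ | h p.1 p.2 = (α : EReal)}.Nonempty ∧
      ¬ IsPreconnected {p : ℝ × ℝ | h p.1 p.2 = (α : EReal)} :=
  Fin.of_upper (by norm_num : (1 : ℝ) < 19193 / 10000) L.DP0.low U.upper

end Pool.Agent.Results.MP_99322d_an.IsolatedIsentrope
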